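import Pool.Agent.X319.SST.Six

/-! The sharp smoothed bound for the norm of the inverse of a noncentred Gaussian matrix. -/

set_option autoImplicit false
open MeasureTheory Measure Set ProbabilityTheory
open scoped ENNReal NNReal Matrix

namespace Pool.Agent.X319.SST

open Pool.Agent.H992R2

attribute [local instance] msM bsM

lemma not_KK {n : ℕ} (A : Matrix (Fin n) (Fin n) ℝ) {x ε : ℝ} (hx : 0 < x) (hε : 1 / x < ε)
    {v : Fin n → ℝ} (hv : ∑ i, v i ^ 2 ≤ 1) (hA : x ^ 2 ≤ ∑ i, (A⁻¹ *ᵥ v) i ^ 2) :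
    gr A ∉ KK n (ε ^ 2) := by
  intro hK
  have hε0 : 0 < ε := lt_trans (by positivity) hε
  set z := A⁻¹ *ᵥ v with hz
  have hzz : x ^ 2 ≤ dotProduct z z := by
    simpa only [dotProduct, ← sq] using hA
  have hvv : dotProduct v v ≤ 1 := by
    simpa only [dotProduct, ← sq] using hv
  have hzpos : 0 < dotProduct z z := lt_of_lt_of_le (by positivity) hzz
  have hdet : A.det ≠ 0 := by
    intro h
    have h2 : A⁻¹ = 0 := by
      rw [Matrix.inv_def, h, Ring.inverse_zero, zero_smul]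
    rw [hz, h2, Matrix.zero_mulVec] at hzpos
    simp at hzpos
  have hu : IsUnit A.det := isUnit_iff_ne_zero.mpr hdet
  have huT : IsUnit Aᵀ.det := by rw [Matrix.det_transpose]; exact hu
  have hAz : A *ᵥ z = v := by
    rw [hz, Matrix.mulVec_mulVec, Matrix.mul_nonsing_inv _ hu, Matrix.one_mulVec]
  set u := (Aᵀ)⁻¹ *ᵥ z with hudef
  have hAu : Aᵀ *ᵥ u = z := by
    rw [hudef, Matrix.mulVec_mulVec, Matrix.mul_nonsing_inv _ huT, Matrix.one_mulVec]
  have h1 := hK u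
  rw [gr_quad, hAu] at h1
  have h2 : dotProduct z z = dotProduct v u := by
    conv_lhs => rw [← hAu]
    rw [hAu, ← hAz]
    have : dotProduct (A *ᵥ z) u = dotProduct z (Aᵀ *ᵥ u) := by
      rw [Matrix.mulVec_transpose, dotProduct_comm (A *ᵥ z) u, Matrix.dotProduct_mulVec,
        dotProduct_comm]
    rw [this, hAu]
  have h3 : dotProduct v u ^ 2 ≤ dotProduct v v * dotProduct u u := by
    have := Finset.sum_mul_sq_le_sq_mul_sq Finset.univ v u
    simpa only [dotProduct, ← sq] using this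
  have hu0 := dot_self_nonneg u
  have h4 : dotProduct z z ^ 2 ≤ dotProduct u u := by
    rw [h2]; nlinarith
  -- `ε² |u|² ≤ |z|²`, `|z|⁴ ≤ |u|²`, so `ε² |z|² ≤ 1`
  have h5 : ε ^ 2 * dotProduct z z ≤ 1 := by
    have h6 : ε ^ 2 * dotProduct z z ^ 2 ≤ dotProduct z z := by nlinarith [sq_nonneg ε]
    by_contra hcon
    push Not at hcon
    nlinarith
  have h7 : ε ^ 2 * x ^ 2 ≤ 1 := by nlinarith [sq_nonneg ε]
  have h8 : 1 < ε * x := by
    rw [div_lt_iff₀ hx] at hε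
    exact hε
  nlinarith

theorem unit_case {N : ℕ} (Abar : Matrix (Fin (N + 1)) (Fin (N + 1)) ℝ) {x : ℝ} (hx : 0 < x) :
    muM (N + 1) (N + 1) {G | ∃ v : Fin (N + 1) → ℝ, (∑ i, v i ^ 2 ≤ 1) ∧
      x ^ 2 ≤ ∑ i, ((Abar + Matrix.of G)⁻¹ *ᵥ v) i ^ 2} ≤
    ENNReal.ofReal (Real.sqrt (N + 1) * (1 / x)) := by
  have hstep : ∀ ε : ℝ, 1 / x < ε →
      muM (N + 1) (N + 1) {G | ∃ v : Fin (N + 1) → ℝ, (∑ i, v i ^ 2 ≤ 1) ∧
      x ^ 2 ≤ ∑ i, ((Abar + Matrix.of G)⁻¹ *ᵥ v) i ^ 2} ≤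
      ENNReal.ofReal (Real.sqrt (N + 1) * ε) := by
    intro ε hε
    have hε0 : 0 < ε := lt_trans (by positivity) hε
    have hgrm : Measurable fun G : Fin (N + 1) → Fin (N + 1) → ℝ => gr (Abar + Matrix.of G) :=
      (continuous_gr.comp (cont_G Abar)).measurable
    have hS : MeasurableSet {G : Fin (N + 1) → Fin (N + 1) → ℝ |
        gr (Abar + Matrix.of G) ∈ KK (N + 1) (ε ^ 2)} := hgrm (measurableSet_KK _ _)
    have hsub : {G : Fin (N + 1) → Fin (N + 1) → ℝ | ∃ v : Fin (N + 1) → ℝ,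
        (∑ i, v i ^ 2 ≤ 1) ∧ x ^ 2 ≤ ∑ i, ((Abar + Matrix.of G)⁻¹ *ᵥ v) i ^ 2} ⊆
        {G | gr (Abar + Matrix.of G) ∈ KK (N + 1) (ε ^ 2)}ᶜ := by
      rintro G ⟨v, hv, hG⟩
      exact not_KK _ hx hε hv hG
    refine (measure_mono hsub).trans ?_
    rw [prob_compl_eq_one_sub hS]
    have h1 := lower Abar hε0
    calc 1 - muM (N + 1) (N + 1) {G | gr (Abar + Matrix.of G) ∈ KK (N + 1) (ε ^ 2)}
        ≤ 1 - ENNReal.ofReal (1 - Real.sqrt (N + 1) * ε) := tsub_le_tsub_left h1 1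
      _ ≤ ENNReal.ofReal (Real.sqrt (N + 1) * ε) := by
          rw [tsub_le_iff_right, ← ENNReal.ofReal_one]
          refine le_trans ?_ (ENNReal.ofReal_add_le)
          apply ENNReal.ofReal_le_ofReal
          linarith
  have hlim : Filter.Tendsto (fun k : ℕ => ENNReal.ofReal
      (Real.sqrt (N + 1) * (1 / x + 1 / ((k : ℝ) + 1)))) Filter.atTop
      (nhds (ENNReal.ofReal (Real.sqrt (N + 1) * (1 / x)))) := by
    apply ENNReal.tendsto_ofReal
    have h1 : Filter.Tendsto (fun k : ℕ => 1 / x + 1 / ((k : ℝ) + 1)) Filter.atTop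
        (nhds (1 / x + 0)) :=
      tendsto_const_nhds.add tendsto_one_div_add_atTop_nhds_zero_nat
    rw [add_zero] at h1
    exact h1.const_mul _
  refine ge_of_tendsto' hlim fun k => hstep _ ?_
  have : (0 : ℝ) < 1 / ((k : ℝ) + 1) := by positivity
  linarith

theorem main (n : ℕ) (Abar : Matrix (Fin n) (Fin n) ℝ) (σ x : ℝ) (hσ : 0 < σ) (hx : 0 < x) :
    (Measure.pi (fun _ : Fin n => Measure.pi (fun _ : Fin n => gaussianReal 0 1)))
        {G : Fin n → Fin n → ℝ |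
          ∃ v : Fin n → ℝ, (∑ i, v i ^ 2 ≤ 1) ∧
            x ^ 2 ≤ ∑ i, (Matrix.mulVec (Abar + σ • Matrix.of G)⁻¹ v) i ^ 2}
        ≤ ENNReal.ofReal (Real.sqrt n / (x * σ)) := by
  rcases n with _ | N
  · have : {G : Fin 0 → Fin 0 → ℝ |
          ∃ v : Fin 0 → ℝ, (∑ i, v i ^ 2 ≤ 1) ∧
            x ^ 2 ≤ ∑ i, (Matrix.mulVec (Abar + σ • Matrix.of G)⁻¹ v) i ^ 2} = ∅ := by
      ext G
      simp only [mem_ofPred_eq, mem_empty_iff_false, iff_false, not_exists, not_and]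
      intro v _ h
      simp at h
      have := pow_pos hx 2
      linarith
    rw [this, measure_empty]
    exact zero_le
  · have h1 := unit_case (σ⁻¹ • Abar) (x := x * σ) (by positivity)
    have hsub : {G : Fin (N + 1) → Fin (N + 1) → ℝ |
          ∃ v : Fin (N + 1) → ℝ, (∑ i, v i ^ 2 ≤ 1) ∧
            x ^ 2 ≤ ∑ i, (Matrix.mulVec (Abar + σ • Matrix.of G)⁻¹ v) i ^ 2} ⊆
        {G | ∃ v : Fin (N + 1) → ℝ, (∑ i, v i ^ 2 ≤ 1) ∧
      (x * σ) ^ 2 ≤ ∑ i, ((σ⁻¹ • Abar + Matrix.of G)⁻¹ *ᵥ v) i ^ 2} := by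
      rintro G ⟨v, hv, hG⟩
      refine ⟨v, hv, ?_⟩
      have hA : Abar + σ • Matrix.of G = σ • (σ⁻¹ • Abar + Matrix.of G) := by
        rw [smul_add, smul_smul, mul_inv_cancel₀ hσ.ne', one_smul]
      by_cases hdet : (σ⁻¹ • Abar + Matrix.of G).det = 0
      · exfalso
        have h2 : (Abar + σ • Matrix.of G)⁻¹ = 0 := by
          rw [hA, Matrix.inv_def, Matrix.det_smul, hdet, mul_zero, Ring.inverse_zero, zero_smul]
        rw [h2, Matrix.zero_mulVec] at hG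
        simp at hG
        have := pow_pos hx 2
        linarith
      · have hinv : (Abar + σ • Matrix.of G)⁻¹ = σ⁻¹ • (σ⁻¹ • Abar + Matrix.of G)⁻¹ := by
          apply Matrix.inv_eq_left_inv
          rw [hA, Matrix.smul_mul, Matrix.mul_smul, smul_smul, inv_mul_cancel₀ hσ.ne', one_smul,
            Matrix.nonsing_inv_mul _ (isUnit_iff_ne_zero.mpr hdet)]
        rw [hinv, Matrix.smul_mulVec] at hG
        simp only [Pi.smul_apply, smul_eq_mul, mul_pow] at hG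
        rw [← Finset.mul_sum] at hG
        rw [mul_pow]
        have h3 := mul_le_mul_of_nonneg_left hG (sq_nonneg σ)
        have h4 : σ ^ 2 * (σ⁻¹ ^ 2 * ∑ i, ((σ⁻¹ • Abar + Matrix.of G)⁻¹ *ᵥ v) i ^ 2) =
            ∑ i, ((σ⁻¹ • Abar + Matrix.of G)⁻¹ *ᵥ v) i ^ 2 := by
          rw [← mul_assoc, ← mul_pow, mul_inv_cancel₀ hσ.ne', one_pow, one_mul]
        rw [h4] at h3
        linarith
    refine (measure_mono hsub).trans (h1.trans (le_of_eq ?_))
    congr 1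
    push_cast
    rw [mul_one_div]

end Pool.Agent.X319.SST
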