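import Pool.Agent.X319.SST.Four
import Pool.Agent.H992R2.DetNull

/-! Gaussian quadratic integral; fixed vector bound. -/

set_option autoImplicit false
open MeasureTheory Measure Set ProbabilityTheory
open scoped ENNReal NNReal Matrix MatrixOrder

namespace Pool.Agent.X319.SST

open Pool.Agent.H992R2

attribute [local instance] msM bsM

/-- the standard Gaussian density on `Fin n → ℝ` -/
noncomputable def pd {n : ℕ} (y : Fin n → ℝ) : ℝ≥0∞ :=
  ENNReal.ofReal (((Real.sqrt (2 * Real.pi))⁻¹) ^ n * Real.exp (-(dotProduct y y) / 2))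

lemma measurable_pd {n : ℕ} : Measurable (pd : (Fin n → ℝ) → ℝ≥0∞) := by
  unfold pd
  simp only [dotProduct]
  fun_prop

lemma gam_eq (n : ℕ) : gam (Fin n) = (volume : Measure (Fin n → ℝ)).withDensity pd := by
  have h3 : (fun _ : Fin n => gaussianReal 0 1) =
      fun _ : Fin n => (volume : Measure ℝ).withDensity (gaussianPDF 0 1) := by
    funext _
    exact gaussianReal_of_var_ne_zero 0 one_ne_zero
  have hsf : ∀ _ : Fin n, SigmaFinite ((volume : Measure ℝ).withDensity
      (gaussianPDF 0 1)) := by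
    intro _
    rw [← gaussianReal_of_var_ne_zero 0 one_ne_zero]
    infer_instance
  rw [gam, h3, pi_withDensity_real (fun _ : Fin n => gaussianPDF 0 1)
    (fun _ => measurable_gaussianPDF 0 1) hsf]
  congr 1
  funext y
  have h2 : ∀ i, gaussianPDF 0 1 (y i) =
      ENNReal.ofReal ((Real.sqrt (2 * Real.pi))⁻¹ * Real.exp (-(y i ^ 2) / 2)) := by
    intro i
    rw [gaussianPDF_def, gaussianPDFReal_def]
    simp
  simp_rw [h2]
  rw [← ENNReal.ofReal_prod_of_nonneg (fun i _ => by positivity), pd]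
  congr 1
  rw [Finset.prod_mul_distrib, Finset.prod_const, Finset.card_univ, Fintype.card_fin,
    ← Real.exp_sum]
  congr 2
  rw [← Finset.sum_div, Finset.sum_neg_distrib]
  simp only [dotProduct, sq]

lemma lintegral_pd (n : ℕ) : ∫⁻ y : Fin n → ℝ, pd y = 1 := by
  have h : gam (Fin n) univ = 1 := measure_univ
  rw [gam_eq, withDensity_apply _ MeasurableSet.univ, Measure.restrict_univ] at h
  exact h

theorem gauss_quad {n : ℕ} (B : Matrix (Fin n) (Fin n) ℝ) {c : ℝ} (hc : 0 ≤ c) :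
    ∫⁻ y, ENNReal.ofReal (Real.exp (-(c * dotProduct (B *ᵥ y) (B *ᵥ y)) / 2)) ∂(gam (Fin n)) =
      ENNReal.ofReal (Real.sqrt (1 / (1 + c • (Bᵀ * B)).det)) := by
  have hpsd : (Bᵀ * B).PosSemidef := by
    have := Matrix.posSemidef_conjTranspose_mul_self B
    rwa [Matrix.conjTranspose_eq_transpose_of_trivial] at this
  have hS : (1 + c • (Bᵀ * B)).PosDef := Matrix.PosDef.one.add_posSemidef (hpsd.smul hc)
  have hdet : 0 < (1 + c • (Bᵀ * B)).det := hS.det_pos
  obtain ⟨C, hC⟩ := CStarAlgebra.nonneg_iff_eq_star_mul_self.mp hS.posSemidef.nonneg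
  rw [Matrix.star_eq_conjTranspose, Matrix.conjTranspose_eq_transpose_of_trivial] at hC
  have hCdet : (1 + c • (Bᵀ * B)).det = C.det ^ 2 := by
    rw [hC, Matrix.det_mul, Matrix.det_transpose, sq]
  have hC0 : C.det ≠ 0 := by
    intro h
    rw [hCdet, h] at hdet
    simp at hdet
  have hquad : ∀ y : Fin n → ℝ, dotProduct (C *ᵥ y) (C *ᵥ y) =
      dotProduct y y + c * dotProduct (B *ᵥ y) (B *ᵥ y) := by
    intro y
    have h1 : dotProduct (C *ᵥ y) (C *ᵥ y) = dotProduct y ((Cᵀ * C) *ᵥ y) := by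
      rw [← Matrix.mulVec_mulVec, Matrix.dotProduct_mulVec y, ← Matrix.mulVec_transpose,
        Matrix.transpose_transpose]
    have h2 : dotProduct (B *ᵥ y) (B *ᵥ y) = dotProduct y ((Bᵀ * B) *ᵥ y) := by
      rw [← Matrix.mulVec_mulVec, Matrix.dotProduct_mulVec y, ← Matrix.mulVec_transpose,
        Matrix.transpose_transpose]
    rw [h1, h2, ← hC, Matrix.add_mulVec, Matrix.one_mulVec, dotProduct_add, Matrix.smul_mulVec,
      dotProduct_smul, smul_eq_mul]
  have hm1 : Measurable fun y : Fin n → ℝ =>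
      ENNReal.ofReal (Real.exp (-(c * dotProduct (B *ᵥ y) (B *ᵥ y)) / 2)) := by
    have h1 : Continuous fun y : Fin n → ℝ => B *ᵥ y := continuous_const.matrix_mulVec continuous_id
    have h2 : Continuous fun y : Fin n → ℝ => dotProduct (B *ᵥ y) (B *ᵥ y) := h1.dotProduct h1
    have h3 : Continuous fun y : Fin n → ℝ => Real.exp (-(c * dotProduct (B *ᵥ y) (B *ᵥ y)) / 2) := by
      fun_prop
    exact h3.measurable.ennreal_ofReal
  rw [gam_eq, lintegral_withDensity_eq_lintegral_mul _ measurable_pd hm1]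
  have h4 : ∀ y : Fin n → ℝ, ((pd : (Fin n → ℝ) → ℝ≥0∞) * fun y : Fin n → ℝ =>
      ENNReal.ofReal (Real.exp (-(c * dotProduct (B *ᵥ y) (B *ᵥ y)) / 2))) y =
      pd ((Matrix.toLin' C) y) := by
    intro y
    simp only [Pi.mul_apply, pd, Matrix.toLin'_apply]
    rw [← ENNReal.ofReal_mul (by positivity), mul_assoc, ← Real.exp_add, hquad]
    congr 3
    ring
  rw [lintegral_congr h4]
  have hCm : Measurable (Matrix.toLin' C : (Fin n → ℝ) → (Fin n → ℝ)) :=
    (Matrix.toLin' C).continuous_of_finiteDimensional.measurable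
  have h5 := Real.map_matrix_volume_pi_eq_smul_volume_pi hC0
  rw [← lintegral_map measurable_pd hCm, h5, lintegral_smul_measure, lintegral_pd, smul_eq_mul,
    mul_one, hCdet]
  congr 1
  rw [one_div, Real.sqrt_inv, Real.sqrt_sq_eq_abs, abs_inv]

/-- the determinant ratio as a Gaussian expectation -/
theorem ra_eq {n : ℕ} (A : Matrix (Fin n) (Fin n) ℝ) (hA : A.det ≠ 0) {c : ℝ} (hc : 0 ≤ c) :
    ra (gr A) (c • 1) =
      ∫⁻ y, ENNReal.ofReal (Real.exp (-(c * dotProduct (A⁻¹ *ᵥ y) (A⁻¹ *ᵥ y)) / 2))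
        ∂(gam (Fin n)) := by
  rw [gauss_quad _ hc, ra]
  congr 2
  have hu : IsUnit A.det := isUnit_iff_ne_zero.mpr hA
  have h1 : gr A + c • 1 = gr A * (1 + c • ((A⁻¹)ᵀ * A⁻¹)) := by
    rw [Matrix.mul_add, Matrix.mul_one, Matrix.mul_smul, gr]
    congr 2
    rw [← Matrix.mul_assoc, Matrix.mul_assoc A, ← Matrix.transpose_mul, Matrix.nonsing_inv_mul _ hu,
      Matrix.transpose_one, Matrix.mul_one, Matrix.mul_nonsing_inv _ hu]
  have h0 : (gr A).det ≠ 0 := by
    rw [gr, Matrix.det_mul, Matrix.det_transpose]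
    exact mul_ne_zero hA hA
  rw [h1, Matrix.det_mul, div_mul_eq_div_div, div_self h0]

end Pool.Agent.X319.SST
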