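import Pool.Agent.X319.SST.Three

/-! The full shift inequality and the Gaussian quadratic integral. -/

set_option autoImplicit false
open MeasureTheory Measure Set ProbabilityTheory
open scoped ENNReal NNReal Matrix

namespace Pool.Agent.X319.SST

open Pool.Agent.H992R2

attribute [local instance] msM bsM

/-- diagonal matrix supported on a finset -/
noncomputable def Ds {n : ℕ} (s : Finset (Fin n)) (c : ℝ) : Matrix (Fin n) (Fin n) ℝ :=
  Matrix.diagonal fun i => if i ∈ s then c else 0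

lemma Ds_empty {n : ℕ} (c : ℝ) : Ds (∅ : Finset (Fin n)) c = 0 := by
  simp [Ds]

lemma Ds_insert {n : ℕ} {i : Fin n} {s : Finset (Fin n)} (hi : i ∉ s) (c : ℝ) :
    Ds (insert i s) c = Ds s c + Ei i c := by
  simp only [Ds, Ei, Matrix.diagonal_add]
  congr 1
  funext j
  by_cases hj : j = i
  · subst hj; simp [hi]
  · simp [hj]

lemma Ds_univ {n : ℕ} (c : ℝ) : Ds (Finset.univ : Finset (Fin n)) c = c • 1 := by
  simp [Ds, Matrix.smul_one_eq_diagonal]

lemma Ds_psd {n : ℕ} (s : Finset (Fin n)) {c : ℝ} (hc : 0 ≤ c) : (Ds s c).PosSemidef := by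
  apply Matrix.PosSemidef.diagonal
  intro i
  simp only [Pi.zero_apply]
  split_ifs <;> simp [hc]

lemma Ei_psd {n : ℕ} (i : Fin n) {c : ℝ} (hc : 0 ≤ c) : (Ei i c).PosSemidef := by
  apply Matrix.PosSemidef.diagonal
  intro j
  simp only [Pi.zero_apply, Pi.single_apply]
  split_ifs <;> simp [hc]

lemma gr_psd {n : ℕ} (A : Matrix (Fin n) (Fin n) ℝ) : (gr A).PosSemidef := by
  have := Matrix.posSemidef_self_mul_conjTranspose A
  rwa [Matrix.conjTranspose_eq_transpose_of_trivial] at this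

lemma ra_split {n : ℕ} (A : Matrix (Fin n) (Fin n) ℝ) (s : Finset (Fin n)) (i : Fin n)
    {c : ℝ} (hc : 0 ≤ c) :
    ra (gr A) (Ds s c + Ei i c) ≤ ra (gr A + Ds s c) (Ei i c) * ra (gr A) (Ds s c) := by
  by_cases hdet : (gr A).det = 0
  · simp [ra, hdet]
  have hpd : (gr A).PosDef := (gr_psd A).posDef_iff_det_ne_zero.mpr hdet
  have h0 : 0 < (gr A).det := hpd.det_pos
  have h1 : 0 < (gr A + Ds s c).det := (hpd.add_posSemidef (Ds_psd s hc)).det_pos
  have h2 : 0 < (gr A + Ds s c + Ei i c).det :=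
    ((hpd.add_posSemidef (Ds_psd s hc)).add_posSemidef (Ei_psd i hc)).det_pos
  unfold ra
  rw [← ENNReal.ofReal_mul (Real.sqrt_nonneg _), ← Real.sqrt_mul (by positivity), ← add_assoc]
  apply le_of_eq
  congr 2
  field_simp

theorem star {N : ℕ} (Abar : Matrix (Fin (N + 1)) (Fin (N + 1)) ℝ) {ε : ℝ}
    (hε : 0 < ε) (s : Finset (Fin (N + 1))) :
    ∀ (f : Matrix (Fin (N + 1)) (Fin (N + 1)) ℝ → ℝ≥0∞), Measurable f →
    (ENNReal.ofReal (Real.exp (-ε ^ 2 / 2))) ^ s.card *
      ∫⁻ G, f (gr (Abar + Matrix.of G) + Ds s (ε ^ 2)) *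
        ra (gr (Abar + Matrix.of G)) (Ds s (ε ^ 2)) ∂(muM (N + 1) (N + 1)) ≤
    ∫⁻ G, f (gr (Abar + Matrix.of G)) ∂(muM (N + 1) (N + 1)) := by
  induction s using Finset.induction_on with
  | empty =>
    intro f hf
    simp only [Finset.card_empty, pow_zero, one_mul, Ds_empty, add_zero]
    refine lintegral_mono fun G => ?_
    have : ra (gr (Abar + Matrix.of G)) 0 ≤ 1 := by
      unfold ra
      rw [add_zero, ← ENNReal.ofReal_one]
      apply ENNReal.ofReal_le_ofReal
      calc Real.sqrt _ ≤ Real.sqrt 1 := Real.sqrt_le_sqrt (div_self_le_one _)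
        _ = 1 := Real.sqrt_one
    calc f (gr (Abar + Matrix.of G)) * ra (gr (Abar + Matrix.of G)) 0
        ≤ f (gr (Abar + Matrix.of G)) * 1 := by gcongr
      _ = _ := mul_one _
  | insert i s hi ih =>
    intro f hf
    have haddm : Measurable fun W : Matrix (Fin (N + 1)) (Fin (N + 1)) ℝ => W + Ei i (ε ^ 2) :=
      (continuous_id.add continuous_const).measurable
    have h1 := ih (fun W => f (W + Ei i (ε ^ 2)) * ra W (Ei i (ε ^ 2)))
      ((hf.comp haddm).mul (measurable_ra _))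
    have h2 := step Abar i hε f hf
    refine le_trans ?_ h2
    rw [Finset.card_insert_of_notMem hi, pow_succ', mul_assoc]
    gcongr
    refine le_trans ?_ h1
    refine mul_le_mul_right (lintegral_mono fun G => ?_) _
    have h3 := ra_split (Abar + Matrix.of G) s i (sq_nonneg ε)
    calc f (gr (Abar + Matrix.of G) + Ds (insert i s) (ε ^ 2)) *
          ra (gr (Abar + Matrix.of G)) (Ds (insert i s) (ε ^ 2))
        = f (gr (Abar + Matrix.of G) + Ds s (ε ^ 2) + Ei i (ε ^ 2)) *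
          ra (gr (Abar + Matrix.of G)) (Ds s (ε ^ 2) + Ei i (ε ^ 2)) := by
          rw [Ds_insert hi, ← add_assoc]
      _ ≤ f (gr (Abar + Matrix.of G) + Ds s (ε ^ 2) + Ei i (ε ^ 2)) *
          (ra (gr (Abar + Matrix.of G) + Ds s (ε ^ 2)) (Ei i (ε ^ 2)) *
            ra (gr (Abar + Matrix.of G)) (Ds s (ε ^ 2))) := by gcongr
      _ = _ := by rw [mul_assoc]

/-- matrices whose quadratic form dominates `c` times the identity -/
def KK (n : ℕ) (c : ℝ) : Set (Matrix (Fin n) (Fin n) ℝ) :=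
  {W | ∀ v : Fin n → ℝ, c * dotProduct v v ≤ dotProduct v (W *ᵥ v)}

lemma measurableSet_KK (n : ℕ) (c : ℝ) : MeasurableSet (KK n c) := by
  apply IsClosed.measurableSet
  have : KK n c = ⋂ v : Fin n → ℝ,
      {W : Matrix (Fin n) (Fin n) ℝ | c * dotProduct v v ≤ dotProduct v (W *ᵥ v)} := by
    ext W; simp [KK]
  rw [this]
  refine isClosed_iInter fun v => isClosed_le continuous_const ?_
  exact continuous_const.dotProduct (continuous_id.matrix_mulVec continuous_const)

lemma gr_quad {n : ℕ} (A : Matrix (Fin n) (Fin n) ℝ) (v : Fin n → ℝ) :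
    dotProduct v (gr A *ᵥ v) = dotProduct (Aᵀ *ᵥ v) (Aᵀ *ᵥ v) := by
  rw [gr, ← Matrix.mulVec_mulVec, Matrix.dotProduct_mulVec, ← Matrix.mulVec_transpose]

lemma dot_self_nonneg {n : ℕ} (v : Fin n → ℝ) : 0 ≤ dotProduct v v := by
  simp only [dotProduct]; exact Finset.sum_nonneg fun i _ => mul_self_nonneg _

theorem tail_lower {N : ℕ} (Abar : Matrix (Fin (N + 1)) (Fin (N + 1)) ℝ) {ε : ℝ}
    (hε : 0 < ε) :
    (ENNReal.ofReal (Real.exp (-ε ^ 2 / 2))) ^ (N + 1) *
      ∫⁻ G, ra (gr (Abar + Matrix.of G)) ((ε ^ 2) • 1) ∂(muM (N + 1) (N + 1)) ≤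
    muM (N + 1) (N + 1) {G | gr (Abar + Matrix.of G) ∈ KK (N + 1) (ε ^ 2)} := by
  have hKm := measurableSet_KK (N + 1) (ε ^ 2)
  have h := star Abar hε Finset.univ ((KK (N + 1) (ε ^ 2)).indicator 1)
    (measurable_one.indicator hKm)
  rw [Finset.card_univ, Fintype.card_fin] at h
  have hgrm : Measurable fun G : Fin (N + 1) → Fin (N + 1) → ℝ => gr (Abar + Matrix.of G) :=
    (continuous_gr.comp (cont_G Abar)).measurable
  have h2 : ∫⁻ G, (KK (N + 1) (ε ^ 2)).indicator 1 (gr (Abar + Matrix.of G))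
      ∂(muM (N + 1) (N + 1)) =
      muM (N + 1) (N + 1) {G | gr (Abar + Matrix.of G) ∈ KK (N + 1) (ε ^ 2)} := by
    exact lintegral_indicator_one (hgrm hKm)
  rw [← h2]
  refine le_trans ?_ h
  gcongr with G
  rw [Ds_univ]
  have hmem : gr (Abar + Matrix.of G) + (ε ^ 2) • (1 : Matrix (Fin (N + 1)) (Fin (N + 1)) ℝ) ∈
      KK (N + 1) (ε ^ 2) := by
    intro v
    rw [Matrix.add_mulVec, dotProduct_add, gr_quad, Matrix.smul_mulVec, Matrix.one_mulVec,
      dotProduct_smul, smul_eq_mul]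
    have := dot_self_nonneg ((Abar + Matrix.of G)ᵀ *ᵥ v)
    linarith
  rw [indicator_of_mem hmem, Pi.one_apply, one_mul]

end Pool.Agent.X319.SST
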