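import Pool.Agent.H992R2.Slab

/-! One-dimensional Gaussian inequalities. -/

set_option autoImplicit false
open MeasureTheory Measure Set ProbabilityTheory
open scoped ENNReal NNReal

namespace Pool.Agent.X319.SST

/-- folded noncentral Gaussian density -/
noncomputable def q (α s : ℝ) : ℝ :=
  (Real.sqrt (2 * Real.pi))⁻¹ * Real.exp (-α ^ 2 / 2) * Real.exp (-s ^ 2 / 2) * (2 * Real.cosh (α * s))

lemma q_nonneg (α s : ℝ) : 0 ≤ q α s := by
  unfold q
  have := Real.cosh_pos (α * s)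
  positivity

lemma continuous_q (α : ℝ) : Continuous (q α) := by
  unfold q
  fun_prop

lemma q_eq (α s : ℝ) : q α s = gaussianPDFReal 0 1 (s - α) + gaussianPDFReal 0 1 (-s - α) := by
  unfold q
  rw [gaussianPDFReal_def, Real.cosh_eq]
  simp only [NNReal.coe_one, mul_one, sub_zero]
  have h1 : Real.exp (-(s - α) ^ 2 / 2) =
      Real.exp (-α ^ 2 / 2) * Real.exp (-s ^ 2 / 2) * Real.exp (α * s) := by
    rw [← Real.exp_add, ← Real.exp_add]; congr 1; ring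
  have h2 : Real.exp (-(-s - α) ^ 2 / 2) =
      Real.exp (-α ^ 2 / 2) * Real.exp (-s ^ 2 / 2) * Real.exp (-(α * s)) := by
    rw [← Real.exp_add, ← Real.exp_add]; congr 1; ring
  rw [h1, h2]
  ring

lemma lintegral_fold_aux (k : ℝ → ℝ≥0∞) (hk : Measurable k) :
    ∫⁻ s, k s = ∫⁻ s in Ioi (0 : ℝ), (k s + k (-s)) := by
  have h1 : ∫⁻ s, k s = (∫⁻ s in Ioi (0 : ℝ), k s) + ∫⁻ s in Iic (0 : ℝ), k s := by
    rw [← lintegral_add_compl k (measurableSet_Ioi (a := (0 : ℝ))), compl_Ioi]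
  have h2 : ∫⁻ s in Iic (0 : ℝ), k s = ∫⁻ s in Ioi (0 : ℝ), k (-s) := by
    have h3 : ∫⁻ s in Iic (0 : ℝ), k s = ∫⁻ s in Ici (0 : ℝ), k (-s) := by
      have h4 := (Measure.measurePreserving_neg (volume : Measure ℝ)).setLIntegral_comp_preimage
        (measurableSet_Iic (a := (0 : ℝ))) hk
      rw [← h4]
      congr 2
      ext x
      simp
    rw [h3]
    exact setLIntegral_congr Ioi_ae_eq_Ici.symm
  rw [h1, h2, ← lintegral_add_left hk]

theorem fold (α : ℝ) (H : ℝ → ℝ≥0∞) (hH : Measurable H) (heven : ∀ s, H (-s) = H s) :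
    ∫⁻ t, H (α + t) ∂(gaussianReal 0 1) = ∫⁻ s in Ioi (0 : ℝ), H s * ENNReal.ofReal (q α s) := by
  rw [gaussianReal_of_var_ne_zero 0 one_ne_zero,
    lintegral_withDensity_eq_lintegral_mul _ (measurable_gaussianPDF 0 1) (by fun_prop)]
  have h1 : ∫⁻ t, (gaussianPDF 0 1 * fun t => H (α + t)) t =
      ∫⁻ s, ENNReal.ofReal (gaussianPDFReal 0 1 (s - α)) * H s := by
    have := lintegral_add_left_eq_self (μ := (volume : Measure ℝ))
      (fun s => ENNReal.ofReal (gaussianPDFReal 0 1 (s - α)) * H s) α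
    rw [← this]
    refine lintegral_congr fun t => ?_
    simp only [Pi.mul_apply, gaussianPDF_def]
    congr 3
    ring
  rw [h1, lintegral_fold_aux]
  · refine lintegral_congr fun s => ?_
    rw [heven, ← add_mul, mul_comm, q_eq, ENNReal.ofReal_add (gaussianPDFReal_nonneg _ _ _)
      (gaussianPDFReal_nonneg _ _ _)]
  · have : Measurable fun s : ℝ => gaussianPDFReal 0 1 (s - α) :=
      (measurable_gaussianPDFReal 0 1).comp (by fun_prop)
    exact this.ennreal_ofReal.mul hH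

lemma sqrt_image {ε : ℝ} (hε : 0 < ε) :
    (fun s : ℝ => Real.sqrt (s ^ 2 + ε ^ 2)) '' Ioi 0 = Ioi ε := by
  ext u
  simp only [mem_image, mem_Ioi]
  constructor
  · rintro ⟨s, hs, rfl⟩
    apply Real.lt_sqrt_of_sq_lt
    have : 0 < s ^ 2 := by positivity
    linarith
  · intro hu
    have h0 : 0 < u ^ 2 - ε ^ 2 := by nlinarith
    refine ⟨Real.sqrt (u ^ 2 - ε ^ 2), Real.sqrt_pos.mpr h0, ?_⟩
    rw [Real.sq_sqrt h0.le, sub_add_cancel, Real.sqrt_sq (hε.le.trans hu.le)]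

theorem shift1 (F : ℝ → ℝ≥0∞) (hF : Measurable F) (α : ℝ) {ε : ℝ} (hε : 0 < ε) :
    ENNReal.ofReal (Real.exp (-ε ^ 2 / 2)) *
      ∫⁻ t, F ((α + t) ^ 2 + ε ^ 2) *
        ENNReal.ofReal (|α + t| / Real.sqrt ((α + t) ^ 2 + ε ^ 2)) ∂(gaussianReal 0 1) ≤
    ∫⁻ t, F ((α + t) ^ 2) ∂(gaussianReal 0 1) := by
  have h1 := fold α (fun s => F (s ^ 2)) (by fun_prop) (fun s => by simp)
  have h2 := fold α (fun s => F (s ^ 2 + ε ^ 2) *
    ENNReal.ofReal (|s| / Real.sqrt (s ^ 2 + ε ^ 2))) (by fun_prop) (fun s => by simp)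
  rw [h1, h2]
  -- change of variables
  have hder : ∀ s ∈ Ioi (0 : ℝ), HasDerivWithinAt (fun s : ℝ => Real.sqrt (s ^ 2 + ε ^ 2))
      (s / Real.sqrt (s ^ 2 + ε ^ 2)) (Ioi 0) s := by
    intro s hs
    have hpos : s ^ 2 + ε ^ 2 ≠ 0 := by positivity
    have h3 : HasDerivAt (fun s : ℝ => s ^ 2 + ε ^ 2) (2 * s) s := by
      simpa using (hasDerivAt_pow 2 s).add_const (ε ^ 2)
    have h4 := h3.sqrt hpos
    have h5 : 2 * s / (2 * Real.sqrt (s ^ 2 + ε ^ 2)) = s / Real.sqrt (s ^ 2 + ε ^ 2) := by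
      rw [mul_div_mul_left _ _ two_ne_zero]
    rw [h5] at h4
    exact h4.hasDerivWithinAt
  have hinj : InjOn (fun s : ℝ => Real.sqrt (s ^ 2 + ε ^ 2)) (Ioi 0) := by
    intro s hs t ht hst
    simp only at hst
    have h3 : s ^ 2 + ε ^ 2 = t ^ 2 + ε ^ 2 := by
      have h5 : Real.sqrt (s ^ 2 + ε ^ 2) ^ 2 = Real.sqrt (t ^ 2 + ε ^ 2) ^ 2 := by rw [hst]
      rwa [Real.sq_sqrt (by positivity), Real.sq_sqrt (by positivity)] at h5
    have h4 : s ^ 2 = t ^ 2 := by linarith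
    exact (pow_left_inj₀ (mem_Ioi.mp hs).le (mem_Ioi.mp ht).le two_ne_zero).mp h4
  have hcv := lintegral_image_eq_lintegral_abs_deriv_mul measurableSet_Ioi hder hinj
    (fun u => F (u ^ 2) * ENNReal.ofReal (q α (Real.sqrt (u ^ 2 - ε ^ 2))))
  rw [sqrt_image hε] at hcv
  have h3 : ∫⁻ s in Ioi (0 : ℝ), F (s ^ 2 + ε ^ 2) *
      ENNReal.ofReal (|s| / Real.sqrt (s ^ 2 + ε ^ 2)) * ENNReal.ofReal (q α s) =
      ∫⁻ u in Ioi ε, F (u ^ 2) * ENNReal.ofReal (q α (Real.sqrt (u ^ 2 - ε ^ 2))) := by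
    rw [hcv]
    refine setLIntegral_congr_fun measurableSet_Ioi fun s hs => ?_
    have hs0 : 0 < s := hs
    rw [Real.sq_sqrt (by positivity), add_sub_cancel_right, Real.sqrt_sq hs0.le,
      abs_of_pos hs0, abs_of_nonneg (by positivity)]
    ring
  rw [h3, ← lintegral_const_mul' _ _ ENNReal.ofReal_ne_top]
  refine le_trans ?_ (lintegral_mono_set (Ioi_subset_Ioi hε.le))
  refine setLIntegral_mono' measurableSet_Ioi fun u hu => ?_
  have hu0 : ε < u := hu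
  rw [mul_left_comm, ← ENNReal.ofReal_mul (Real.exp_nonneg _)]
  gcongr
  unfold q
  have h0 : 0 < u ^ 2 - ε ^ 2 := by nlinarith
  rw [Real.sq_sqrt h0.le]
  have he : Real.exp (-ε ^ 2 / 2) * Real.exp (-(u ^ 2 - ε ^ 2) / 2) = Real.exp (-u ^ 2 / 2) := by
    rw [← Real.exp_add]; congr 1; ring
  have hc : Real.cosh (α * Real.sqrt (u ^ 2 - ε ^ 2)) ≤ Real.cosh (α * u) := by
    rw [Real.cosh_le_cosh, abs_mul, abs_mul]
    gcongr
    apply Real.sqrt_le_iff.mpr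
    constructor
    · linarith
    · nlinarith
  calc Real.exp (-ε ^ 2 / 2) * ((Real.sqrt (2 * Real.pi))⁻¹ * Real.exp (-α ^ 2 / 2) *
        Real.exp (-(u ^ 2 - ε ^ 2) / 2) * (2 * Real.cosh (α * Real.sqrt (u ^ 2 - ε ^ 2))))
      = (Real.sqrt (2 * Real.pi))⁻¹ * Real.exp (-α ^ 2 / 2) *
        (Real.exp (-ε ^ 2 / 2) * Real.exp (-(u ^ 2 - ε ^ 2) / 2)) *
        (2 * Real.cosh (α * Real.sqrt (u ^ 2 - ε ^ 2))) := by ring
    _ ≤ _ := by
        rw [he]
        gcongr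

end Pool.Agent.X319.SST
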