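import Pool.Agent.X319.SST.Five

/-! The bound for a fixed vector and the final estimate. -/

set_option autoImplicit false
open MeasureTheory Measure Set ProbabilityTheory
open scoped ENNReal NNReal Matrix

namespace Pool.Agent.X319.SST

open Pool.Agent.H992R2

attribute [local instance] msM bsM

lemma meas_F {n : ℕ} {X : Type*} [TopologicalSpace X] [MeasurableSpace X] [OpensMeasurableSpace X]
    {A : X → Matrix (Fin n) (Fin n) ℝ} (hA : Continuous A) (w : Fin n → ℝ) (c : ℝ) :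
    Measurable fun a => ENNReal.ofReal (Real.exp (-(c * dotProduct ((A a)⁻¹ *ᵥ w) ((A a)⁻¹ *ᵥ w)) / 2)) := by
  simp_rw [← en_sq]
  have h1 := meas_en_inv hA w
  fun_prop

theorem fixed_e0 {N : ℕ} (Abar : Matrix (Fin (N + 1)) (Fin (N + 1)) ℝ) {a : ℝ} (ha : 0 ≤ a) :
    ENNReal.ofReal (Real.exp (-a)) ≤
      ∫⁻ G, ENNReal.ofReal (Real.exp (-(a ^ 2 * dotProduct ((Abar + Matrix.of G)⁻¹ *ᵥ (ez N))
        ((Abar + Matrix.of G)⁻¹ *ᵥ (ez N))) / 2)) ∂(muM (N + 1) (N + 1)) := by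
  have hsplit := measurePreserving_piFinSuccAbove
    (fun _ : Fin (N + 1) => gam (Fin (N + 1))) 0
  set e := MeasurableEquiv.piFinSuccAbove (fun _ : Fin (N + 1) => (Fin (N + 1) → ℝ)) 0 with he
  have hgen : ∀ Ψ : (Fin (N + 1) → Fin (N + 1) → ℝ) → ℝ≥0∞, Measurable Ψ →
      ∫⁻ G, Ψ G ∂(muM (N + 1) (N + 1)) =
      ∫⁻ B, ∫⁻ g, Ψ ((0 : Fin (N + 1)).insertNth g B) ∂(gam (Fin (N + 1)))
        ∂(Measure.pi fun _ : Fin N => gam (Fin (N + 1))) := by
    intro Ψ hΨ
    have h1 : Measurable fun z : (Fin (N + 1) → ℝ) × (Fin N → Fin (N + 1) → ℝ) =>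
        Ψ (e.symm z) := hΨ.comp e.symm.measurable
    have h2 : ∫⁻ G, Ψ G ∂(muM (N + 1) (N + 1)) =
        ∫⁻ z, Ψ (e.symm z) ∂((gam (Fin (N + 1))).prod
          (Measure.pi fun _ : Fin N => gam (Fin (N + 1)))) := by
      rw [← hsplit.lintegral_comp h1]
      refine lintegral_congr fun G => ?_
      rw [show (MeasurableEquiv.piFinSuccAbove (fun _ : Fin (N + 1) => (Fin (N + 1) → ℝ)) 0) G = e G
        from rfl, e.symm_apply_apply]
    rw [h2, lintegral_prod_symm' _ h1]
    rfl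
  rw [hgen _ (meas_F (cont_G Abar) (ez N) (a ^ 2))]
  have hconst : ENNReal.ofReal (Real.exp (-a)) = ∫⁻ _ : Fin N → Fin (N + 1) → ℝ,
      ENNReal.ofReal (Real.exp (-a)) ∂(Measure.pi fun _ : Fin N => gam (Fin (N + 1))) := by
    simp
  rw [hconst]
  refine lintegral_mono fun B => ?_
  obtain ⟨ν, hν, hνB⟩ := exists_normal (fun j => Abar ((0 : Fin (N + 1)).succAbove j) + B j)
  obtain ⟨L, hLm, hLν, hL⟩ := row_disint ν hν
  set α := dotProduct (Abar 0) ν with hα
  have hΦm : Measurable fun g : Fin (N + 1) → ℝ =>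
      ENNReal.ofReal (Real.exp (-(a ^ 2 / (2 * (α + dotProduct ν g) ^ 2)))) := by
    simp only [dotProduct]
    fun_prop
  have h1 : ∫⁻ g, ENNReal.ofReal (Real.exp (-(a ^ 2 / (2 * (α + dotProduct ν g) ^ 2))))
      ∂(gam (Fin (N + 1))) ≤
      ∫⁻ g, ENNReal.ofReal (Real.exp (-(a ^ 2 * dotProduct
        ((Abar + Matrix.of ((0 : Fin (N + 1)).insertNth g B))⁻¹ *ᵥ (ez N))
        ((Abar + Matrix.of ((0 : Fin (N + 1)).insertNth g B))⁻¹ *ᵥ (ez N))) / 2))
        ∂(gam (Fin (N + 1))) := by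
    refine lintegral_mono fun g => ?_
    apply ENNReal.ofReal_le_ofReal
    rw [Real.exp_le_exp]
    set A := Abar + Matrix.of ((0 : Fin (N + 1)).insertNth g B) with hA
    set s := α + dotProduct ν g with hs
    by_cases hdet : A.det = 0
    · have h2 : A⁻¹ = 0 := by
        rw [Matrix.inv_def, hdet, Ring.inverse_zero, zero_smul]
      rw [h2, Matrix.zero_mulVec]
      simp only [dotProduct_zero, mul_zero, neg_zero, zero_div, Left.neg_nonpos_iff]
      positivity
    · have hAν : A *ᵥ ν = s • ez N := by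
        funext j
        refine Fin.cases ?_ (fun j => ?_) j
        · have h3 : A 0 = Abar 0 + g := by
            funext k; simp [hA]
          rw [Matrix.mulVec, h3, add_dotProduct, ← hα, dotProduct_comm g, ← hs]
          simp [ez]
        · have h3 : A j.succ = Abar ((0 : Fin (N + 1)).succAbove j) + B j := by
            funext k; simp [hA]
          rw [Matrix.mulVec, h3, hνB]
          simp [ez]
      have hu : IsUnit A.det := isUnit_iff_ne_zero.mpr hdet
      have h4 : ν = s • (A⁻¹ *ᵥ ez N) := by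
        rw [← Matrix.mulVec_smul, ← hAν, Matrix.mulVec_mulVec, Matrix.nonsing_inv_mul _ hu,
          Matrix.one_mulVec]
      have hs0 : s ≠ 0 := by
        intro h
        rw [h, zero_smul] at h4
        rw [h4] at hν
        simp at hν
      have h5 : s ^ 2 * dotProduct (A⁻¹ *ᵥ ez N) (A⁻¹ *ᵥ ez N) = 1 := by
        rw [h4, smul_dotProduct, dotProduct_smul, smul_eq_mul, smul_eq_mul] at hν
        linarith
      have h6 : dotProduct (A⁻¹ *ᵥ ez N) (A⁻¹ *ᵥ ez N) = 1 / s ^ 2 := by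
        field_simp
        linarith
      rw [h6]
      apply le_of_eq
      field_simp
  refine le_trans ?_ h1
  rw [hL _ hΦm]
  have h2 : ENNReal.ofReal (Real.exp (-a)) = ∫⁻ _ : Fin N → ℝ,
      ENNReal.ofReal (Real.exp (-a)) ∂(gam (Fin N)) := by
    simp
  rw [h2]
  refine lintegral_mono fun r => ?_
  have h3 : ∀ t : ℝ, dotProduct ν (L r + t • ν) = t := by
    intro t
    rw [dotProduct_add, hLν, dotProduct_smul, hν]
    simp
  simp_rw [h3]
  exact inv_exp ha α

theorem fixed_vec {N : ℕ} (Abar : Matrix (Fin (N + 1)) (Fin (N + 1)) ℝ) (y : Fin (N + 1) → ℝ)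
    {ε : ℝ} (hε : 0 ≤ ε) :
    ENNReal.ofReal (Real.exp (-(ε * en y))) ≤
      ∫⁻ G, ENNReal.ofReal (Real.exp (-(ε ^ 2 * dotProduct ((Abar + Matrix.of G)⁻¹ *ᵥ y)
        ((Abar + Matrix.of G)⁻¹ *ᵥ y)) / 2)) ∂(muM (N + 1) (N + 1)) := by
  have hey : 0 ≤ en y := norm_nonneg _
  set b : Fin (N + 1) → ℝ := en y • ez N with hb
  have hez : dotProduct (ez N) (ez N) = 1 := by simp [ez]
  have hyb : dotProduct y y = dotProduct b b := by
    rw [hb, smul_dotProduct, dotProduct_smul, hez, ← en_sq]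
    simp [sq]
  set Q := hh y b with hQ
  have hQt : Q.transpose = Q := hh_transpose _ _
  have hQQ : Q * Q = 1 := hh_mul_self _ _
  have hQtQ : Q.transpose * Q = 1 := by rw [hQt, hQQ]
  have hQy : Q.mulVec y = b := hh_mulVec _ _ hyb
  have hmp := mp_left_mul (k := N + 1) Q hQtQ
  have hQi : Q⁻¹ = Q := Matrix.inv_eq_left_inv hQQ
  have h1 := fixed_e0 (Q * Abar) (a := ε * en y) (mul_nonneg hε hey)
  refine h1.trans (le_of_eq ?_)
  have hm := meas_F (cont_G (Q * Abar)) (ez N) ((ε * en y) ^ 2)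
  rw [← hmp.lintegral_comp hm]
  refine lintegral_congr fun G => ?_
  have h2 : Matrix.of (fun i j => ∑ l, Q i l * G l j) = Q * Matrix.of G := by
    ext i j
    simp [Matrix.mul_apply]
  have h3 : Q * Abar + Matrix.of (fun i j => ∑ l, Q i l * G l j) = Q * (Abar + Matrix.of G) := by
    rw [h2, Matrix.mul_add]
  rw [h3, Matrix.mul_inv_rev, hQi]
  have h4 : (en y) • (((Abar + Matrix.of G)⁻¹ * Q) *ᵥ ez N) = (Abar + Matrix.of G)⁻¹ *ᵥ y := by
    rw [← Matrix.mulVec_smul, ← hb, ← hQy, Matrix.mulVec_mulVec, Matrix.mul_assoc, hQQ,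
      Matrix.mul_one]
  rw [← h4, smul_dotProduct, dotProduct_smul, smul_eq_mul, smul_eq_mul]
  congr 3
  ring

theorem norm_mean {N : ℕ} {ε : ℝ} (hε : 0 ≤ ε) :
    ENNReal.ofReal (Real.exp (-(ε * Real.sqrt (N + 1)))) ≤
      ∫⁻ y, ENNReal.ofReal (Real.exp (-(ε * en y))) ∂(gam (Fin (N + 1))) := by
  set m : ℝ := Real.sqrt (N + 1) with hm
  have hm0 : 0 < m := Real.sqrt_pos.mpr (by positivity)
  have hm2 : m ^ 2 = N + 1 := Real.sq_sqrt (by positivity)
  set K : ℝ := Real.exp (-(ε * m)) * (ε / (2 * m)) with hK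
  have hK0 : 0 ≤ K := by positivity
  have henm : Measurable fun y : Fin (N + 1) → ℝ => en y := continuous_en.measurable
  have hsum : ∫⁻ y : Fin (N + 1) → ℝ, ENNReal.ofReal (dotProduct y y) ∂(gam (Fin (N + 1))) =
      ENNReal.ofReal (m ^ 2) := by
    have h1 : ∀ y : Fin (N + 1) → ℝ, ENNReal.ofReal (dotProduct y y) =
        ∑ i, ENNReal.ofReal (y i ^ 2) := by
      intro y
      rw [← ENNReal.ofReal_sum_of_nonneg (fun i _ => sq_nonneg _)]
      simp only [dotProduct, sq]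
    simp_rw [h1]
    rw [lintegral_finsetSum _ (fun i _ => by fun_prop)]
    have h2 : ∀ i : Fin (N + 1), ∫⁻ y : Fin (N + 1) → ℝ, ENNReal.ofReal (y i ^ 2)
        ∂(gam (Fin (N + 1))) = 1 := by
      intro i
      have h3 := (measurePreserving_eval (fun _ : Fin (N + 1) => gaussianReal 0 1) i)
      have h4 : Measurable fun x : ℝ => ENNReal.ofReal (x ^ 2) := by fun_prop
      have h5 := h3.lintegral_comp h4
      rw [lintegral_sq_gaussian 1] at h5
      exact_mod_cast h5
    simp_rw [h2]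
    rw [hm2]
    simp only [Finset.sum_const, Finset.card_univ, Fintype.card_fin, nsmul_eq_mul, mul_one]
    rw [ENNReal.ofReal_add (by positivity) zero_le_one]
    simp
  have key : ENNReal.ofReal (Real.exp (-(ε * m))) + ENNReal.ofReal (K * m ^ 2) ≤
      (∫⁻ y, ENNReal.ofReal (Real.exp (-(ε * en y))) ∂(gam (Fin (N + 1)))) +
        ENNReal.ofReal (K * m ^ 2) := by
    have e1 : ENNReal.ofReal (K * m ^ 2) =
        ∫⁻ y : Fin (N + 1) → ℝ, ENNReal.ofReal K * ENNReal.ofReal (dotProduct y y)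
          ∂(gam (Fin (N + 1))) := by
      rw [lintegral_const_mul' _ _ ENNReal.ofReal_ne_top, hsum, ← ENNReal.ofReal_mul hK0]
    conv_rhs => rw [e1]
    rw [← lintegral_add_left (by fun_prop)]
    have e2 : ENNReal.ofReal (Real.exp (-(ε * m))) + ENNReal.ofReal (K * m ^ 2) =
        ∫⁻ _ : Fin (N + 1) → ℝ, ENNReal.ofReal (Real.exp (-(ε * m)) + K * m ^ 2)
          ∂(gam (Fin (N + 1))) := by
      rw [lintegral_const, measure_univ, mul_one, ENNReal.ofReal_add (Real.exp_pos _).le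
        (by positivity)]
    rw [e2]
    refine lintegral_mono fun y => ?_
    rw [← ENNReal.ofReal_mul hK0, ← ENNReal.ofReal_add (Real.exp_pos _).le
      (mul_nonneg hK0 (dot_self_nonneg y)), ← en_sq]
    apply ENNReal.ofReal_le_ofReal
    set r := en y with hr
    have h1 : Real.exp (-(ε * m)) * (1 + (-(ε * r) + ε * m)) ≤ Real.exp (-(ε * r)) := by
      have h2 := Real.add_one_le_exp (-(ε * r) + ε * m)
      calc Real.exp (-(ε * m)) * (1 + (-(ε * r) + ε * m))
          ≤ Real.exp (-(ε * m)) * Real.exp (-(ε * r) + ε * m) := by gcongr; linarith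
        _ = Real.exp (-(ε * r)) := by rw [← Real.exp_add]; congr 1; ring
    have h3 : Real.exp (-(ε * m)) * (ε * r) ≤ K * (m ^ 2 + r ^ 2) := by
      have h4 : 2 * m * r ≤ m ^ 2 + r ^ 2 := by nlinarith [sq_nonneg (m - r)]
      calc Real.exp (-(ε * m)) * (ε * r) = K * (2 * m * r) := by rw [hK]; field_simp
        _ ≤ K * (m ^ 2 + r ^ 2) := by gcongr
    have h5 : Real.exp (-(ε * m)) * (ε * m) = 2 * (K * m ^ 2) := by
      rw [hK]; field_simp
    nlinarith
  exact (ENNReal.add_le_add_iff_right ENNReal.ofReal_ne_top).mp key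

/-- lower bound for the probability that the smallest singular value is at least `ε` -/
theorem lower {N : ℕ} (Abar : Matrix (Fin (N + 1)) (Fin (N + 1)) ℝ) {ε : ℝ} (hε : 0 < ε) :
    ENNReal.ofReal (1 - Real.sqrt (N + 1) * ε) ≤
      muM (N + 1) (N + 1) {G | gr (Abar + Matrix.of G) ∈ KK (N + 1) (ε ^ 2)} := by
  have h1 := tail_lower Abar hε
  refine le_trans ?_ h1
  have h2 : ENNReal.ofReal (Real.exp (-(ε * Real.sqrt (N + 1)))) ≤
      ∫⁻ G, ra (gr (Abar + Matrix.of G)) ((ε ^ 2) • 1) ∂(muM (N + 1) (N + 1)) := by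
    have hae : ∀ᵐ G ∂(muM (N + 1) (N + 1)), (Abar + Matrix.of G).det ≠ 0 := by
      have := det_null (n := N + 1) Abar (σ := 1) one_pos
      simp only [one_smul] at this
      rw [ae_iff]
      simpa using this
    have h3 : ∫⁻ G, ra (gr (Abar + Matrix.of G)) ((ε ^ 2) • 1) ∂(muM (N + 1) (N + 1)) =
        ∫⁻ G, ∫⁻ y, ENNReal.ofReal (Real.exp (-(ε ^ 2 * dotProduct ((Abar + Matrix.of G)⁻¹ *ᵥ y)
          ((Abar + Matrix.of G)⁻¹ *ᵥ y)) / 2)) ∂(gam (Fin (N + 1))) ∂(muM (N + 1) (N + 1)) := by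
      refine lintegral_congr_ae ?_
      filter_upwards [hae] with G hG
      exact ra_eq _ hG (sq_nonneg ε)
    have hmeas : Measurable fun z : (Fin (N + 1) → Fin (N + 1) → ℝ) × (Fin (N + 1) → ℝ) =>
        ENNReal.ofReal (Real.exp (-(ε ^ 2 * dotProduct ((Abar + Matrix.of z.1)⁻¹ *ᵥ z.2)
          ((Abar + Matrix.of z.1)⁻¹ *ᵥ z.2)) / 2)) := by
      have hc : Continuous fun z : (Fin (N + 1) → Fin (N + 1) → ℝ) × (Fin (N + 1) → ℝ) =>
          Abar + Matrix.of z.1 := (cont_G Abar).comp continuous_fst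
      have h4 : ∀ z : (Fin (N + 1) → Fin (N + 1) → ℝ) × (Fin (N + 1) → ℝ),
          dotProduct ((Abar + Matrix.of z.1)⁻¹ *ᵥ z.2) ((Abar + Matrix.of z.1)⁻¹ *ᵥ z.2) =
          ((Abar + Matrix.of z.1).det⁻¹) ^ 2 *
            dotProduct ((Abar + Matrix.of z.1).adjugate *ᵥ z.2)
              ((Abar + Matrix.of z.1).adjugate *ᵥ z.2) := by
        intro z
        rw [Matrix.inv_def, Ring.inverse_eq_inv', Matrix.smul_mulVec, smul_dotProduct,
          dotProduct_smul, smul_eq_mul, smul_eq_mul]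
        ring
      simp_rw [h4]
      have h5 : Measurable fun z : (Fin (N + 1) → Fin (N + 1) → ℝ) × (Fin (N + 1) → ℝ) =>
          ((Abar + Matrix.of z.1).det⁻¹) ^ 2 := (hc.matrix_det.measurable.inv).pow_const 2
      have h6 : Continuous fun z : (Fin (N + 1) → Fin (N + 1) → ℝ) × (Fin (N + 1) → ℝ) =>
          (Abar + Matrix.of z.1).adjugate *ᵥ z.2 := hc.matrix_adjugate.matrix_mulVec continuous_snd
      have h7 := (h6.dotProduct h6).measurable
      have h8 := h5.mul h7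
      have h9 : Measurable fun z : (Fin (N + 1) → Fin (N + 1) → ℝ) × (Fin (N + 1) → ℝ) =>
          Real.exp (-(ε ^ 2 * (((Abar + Matrix.of z.1).det⁻¹) ^ 2 *
            dotProduct ((Abar + Matrix.of z.1).adjugate *ᵥ z.2)
              ((Abar + Matrix.of z.1).adjugate *ᵥ z.2))) / 2) :=
        (((h8.const_mul (ε ^ 2)).neg).div_const 2).exp
      exact h9.ennreal_ofReal
    rw [h3, lintegral_lintegral_swap hmeas.aemeasurable]
    refine (norm_mean hε.le).trans ?_
    exact lintegral_mono fun y => fixed_vec Abar y hε.le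
  have h10 : ENNReal.ofReal (1 - Real.sqrt (N + 1) * ε) ≤
      (ENNReal.ofReal (Real.exp (-ε ^ 2 / 2))) ^ (N + 1) *
        ENNReal.ofReal (Real.exp (-(ε * Real.sqrt (N + 1)))) := by
    rw [← ENNReal.ofReal_pow (Real.exp_pos _).le, ← ENNReal.ofReal_mul (by positivity)]
    apply ENNReal.ofReal_le_ofReal
    rw [← Real.exp_nat_mul, ← Real.exp_add]
    set δ := Real.sqrt (N + 1) * ε with hδ
    have hδ2 : δ ^ 2 = (N + 1) * ε ^ 2 := by
      rw [hδ, mul_pow, Real.sq_sqrt (by positivity)]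
    have hδ0 : 0 ≤ δ := by positivity
    have h11 : ((N + 1 : ℕ) : ℝ) * (-ε ^ 2 / 2) + -(ε * Real.sqrt (N + 1)) = -δ - δ ^ 2 / 2 := by
      rw [hδ2, hδ]; push_cast; ring
    rw [h11]
    by_cases hδ1 : 1 ≤ δ
    · have := Real.exp_pos (-δ - δ ^ 2 / 2)
      linarith
    · push Not at hδ1
      -- `log (1 - δ) ≤ -δ - δ^2/2`
      have h12 : Real.log (1 - δ) ≤ -δ - δ ^ 2 / 2 := by
        have hs := Real.hasSum_pow_div_log_of_abs_lt_one (x := δ) (by rw [abs_of_nonneg hδ0]; exact hδ1)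
        have h13 := sum_le_hasSum (Finset.range 2) (fun i _ => by positivity) hs
        simp [Finset.sum_range_succ] at h13
        norm_num at h13
        linarith
      calc 1 - δ = Real.exp (Real.log (1 - δ)) := (Real.exp_log (by linarith)).symm
        _ ≤ _ := Real.exp_le_exp.mpr h12
  exact h10.trans (by gcongr)

end Pool.Agent.X319.SST
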