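import Pool.Agent.X319.SST.Two
import Pool.Agent.H992R2.Key

/-! Row disintegration and the one-row shift inequality. -/

set_option autoImplicit false
open MeasureTheory Measure Set ProbabilityTheory
open scoped ENNReal NNReal Matrix

namespace Pool.Agent.X319.SST

open Pool.Agent.H992R2

/-- the product sigma-algebra on matrices -/
@[reducible] def msM (n : ℕ) : MeasurableSpace (Matrix (Fin n) (Fin n) ℝ) :=
  inferInstanceAs (MeasurableSpace (Fin n → Fin n → ℝ))

attribute [local instance] msM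

theorem bsM (n : ℕ) : BorelSpace (Matrix (Fin n) (Fin n) ℝ) :=
  inferInstanceAs (BorelSpace (Fin n → Fin n → ℝ))

attribute [local instance] bsM

/-- disintegration of the standard Gaussian along a unit vector -/
theorem row_disint {N : ℕ} (ν : Fin (N + 1) → ℝ) (hν : dotProduct ν ν = 1) :
    ∃ L : (Fin N → ℝ) → (Fin (N + 1) → ℝ), Measurable L ∧ (∀ r, dotProduct ν (L r) = 0) ∧
      ∀ Φ : (Fin (N + 1) → ℝ) → ℝ≥0∞, Measurable Φ →
        ∫⁻ g, Φ g ∂(gam (Fin (N + 1))) =
          ∫⁻ r, ∫⁻ t, Φ (L r + t • ν) ∂(gaussianReal 0 1) ∂(gam (Fin N)) := by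
  set e0 : Fin (N + 1) → ℝ := Pi.single 0 1 with he0
  have he00 : dotProduct e0 e0 = 1 := by simp [he0]
  set Q := hh e0 ν with hQ
  have hQt : Q.transpose = Q := hh_transpose _ _
  have hQQ : Q * Q = 1 := hh_mul_self _ _
  have hQe : Q.mulVec e0 = ν := hh_mulVec _ _ (by rw [he00, hν])
  have hQν : Q.mulVec ν = e0 := by rw [← hQe, Matrix.mulVec_mulVec, hQQ, Matrix.one_mulVec]
  have hmp : MeasurePreserving (fun x : Fin (N + 1) → ℝ => Q.mulVec x) (gam _) (gam _) :=
    mp_mulVec Q (by rw [hQt, hQQ])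
  have hdot : ∀ r : Fin (N + 1) → ℝ, dotProduct ν (Q.mulVec r) = r 0 := by
    intro r
    rw [Matrix.dotProduct_mulVec, ← Matrix.mulVec_transpose, hQt, hQν, he0]
    simp
  have hcons : Measurable fun r : Fin N → ℝ => (Fin.cons 0 r : Fin (N + 1) → ℝ) := by
    rw [measurable_pi_iff]
    intro i
    refine Fin.cases ?_ (fun j => ?_) i
    · simp only [Fin.cons_zero]; exact measurable_const
    · simp only [Fin.cons_succ]; exact measurable_pi_apply j
  refine ⟨fun r => Q.mulVec (Fin.cons 0 r), hmp.measurable.comp hcons, ?_, ?_⟩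
  · intro r
    rw [hdot]; simp
  intro Φ hΦ
  have hsplit := measurePreserving_piFinSuccAbove
    (fun _ : Fin (N + 1) => gaussianReal 0 1) 0
  have hΦ2 : Measurable fun z : ℝ × (Fin N → ℝ) => Φ (Q.mulVec (Fin.cons 0 z.2) + z.1 • ν) := by
    apply hΦ.comp
    have h1 : Measurable fun z : ℝ × (Fin N → ℝ) => Q.mulVec (Fin.cons 0 z.2) :=
      (hmp.measurable.comp hcons).comp measurable_snd
    have h2 : Measurable fun z : ℝ × (Fin N → ℝ) => z.1 • ν := by
      rw [measurable_pi_iff]; intro i; simp only [Pi.smul_apply, smul_eq_mul]; fun_prop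
    exact h1.add h2
  rw [← hmp.lintegral_comp hΦ]
  have h1 : ∀ r : Fin (N + 1) → ℝ, Φ (Q.mulVec r) =
      (fun z : ℝ × (Fin N → ℝ) => Φ (Q.mulVec (Fin.cons 0 z.2) + z.1 • ν))
        ((MeasurableEquiv.piFinSuccAbove (fun _ : Fin (N + 1) => ℝ) 0) r) := by
    intro r
    have h2 : r = (Fin.cons 0 (fun j => r j.succ) : Fin (N + 1) → ℝ) + (r 0) • e0 := by
      funext i
      refine Fin.cases ?_ (fun j => ?_) i
      · simp [he0]
      · simp [he0]
    have h3 : Q.mulVec r = Q.mulVec (Fin.cons 0 (fun j => r j.succ)) + (r 0) • ν := by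
      conv_lhs => rw [h2]
      rw [Matrix.mulVec_add, Matrix.mulVec_smul, hQe]
    rw [h3]
    rfl
  rw [lintegral_congr h1, hsplit.lintegral_comp hΦ2, lintegral_prod_symm' _ hΦ2]

lemma exists_normal {N : ℕ} (b : Fin N → Fin (N + 1) → ℝ) :
    ∃ ν : Fin (N + 1) → ℝ, dotProduct ν ν = 1 ∧ ∀ j, dotProduct (b j) ν = 0 := by
  set M : Matrix (Fin (N + 1)) (Fin (N + 1)) ℝ := Matrix.of (Fin.cons 0 b) with hM
  have hdet : M.det = 0 := by
    apply Matrix.det_eq_zero_of_row_eq_zero 0
    intro j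
    simp [hM]
  obtain ⟨v, hv, hMv⟩ := Matrix.exists_mulVec_eq_zero_iff.mpr hdet
  have hvv : 0 < dotProduct v v := by
    have h1 : 0 ≤ dotProduct v v := by
      simp only [dotProduct]; exact Finset.sum_nonneg fun i _ => mul_self_nonneg _
    exact lt_of_le_of_ne h1 (fun h => hv (dotProduct_self_eq_zero.mp h.symm))
  refine ⟨(Real.sqrt (dotProduct v v))⁻¹ • v, ?_, ?_⟩
  · rw [smul_dotProduct, dotProduct_smul, smul_eq_mul, smul_eq_mul]
    have := Real.mul_self_sqrt hvv.le
    have h2 : Real.sqrt (dotProduct v v) ≠ 0 := (Real.sqrt_pos.mpr hvv).ne'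
    field_simp
    nlinarith
  · intro j
    have h1 := congrFun hMv j.succ
    rw [dotProduct_smul]
    have h2 : dotProduct (b j) v = 0 := by
      have : M.mulVec v j.succ = dotProduct (b j) v := by
        rw [Matrix.mulVec]
        congr 1
      rw [← this, h1]; rfl
    rw [h2, smul_zero]

/-- the Gram matrix of the rows -/
noncomputable def gr {n : ℕ} (A : Matrix (Fin n) (Fin n) ℝ) : Matrix (Fin n) (Fin n) ℝ := A * Aᵀ

/-- a diagonal rank one matrix -/
noncomputable def Ei {n : ℕ} (i : Fin n) (c : ℝ) : Matrix (Fin n) (Fin n) ℝ :=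
  Matrix.diagonal (Pi.single i c)

lemma Ei_eq {n : ℕ} (i : Fin n) (c : ℝ) :
    Ei i c = c • Matrix.vecMulVec (Pi.single i (1 : ℝ)) (Pi.single i (1 : ℝ)) := by
  ext j k
  simp only [Ei, Matrix.smul_apply, Matrix.vecMulVec_apply, Matrix.diagonal_apply, Pi.single_apply,
    smul_eq_mul]
  rcases eq_or_ne j i with rfl | hj
  · rcases eq_or_ne k j with rfl | hk
    · simp
    · simp [hk, hk.symm]
  · simp [hj]

lemma gram_step {n : ℕ} (M0 : Matrix (Fin n) (Fin n) ℝ) (ν : Fin n → ℝ) (i : Fin n) (s : ℝ)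
    (h0 : M0 *ᵥ ν = 0) (hν : dotProduct ν ν = 1) :
    gr (M0 + s • Matrix.vecMulVec (Pi.single i (1 : ℝ)) ν) = gr M0 + Ei i (s ^ 2) := by
  unfold gr
  rw [Ei_eq, Matrix.transpose_add, Matrix.transpose_smul, Matrix.transpose_vecMulVec, Matrix.add_mul,
    Matrix.mul_add, Matrix.mul_add, Matrix.mul_smul, Matrix.mul_vecMulVec, h0,
    Matrix.smul_mul, Matrix.vecMulVec_mul, Matrix.vecMul_transpose, h0, Matrix.smul_mul,
    Matrix.mul_smul, Matrix.vecMulVec_mul_vecMulVec, hν]
  simp [smul_smul, sq]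

lemma det_add_Ei {n : ℕ} (W : Matrix (Fin n) (Fin n) ℝ) (i : Fin n) (c : ℝ) :
    (W + Ei i c).det = W.det + c * W.adjugate i i := by
  have h1 : W + Ei i c = W.updateRow i (W i + c • Pi.single i 1) := by
    ext j k
    by_cases hj : j = i
    · subst hj
      simp only [Matrix.add_apply, Ei, Matrix.diagonal_apply, Matrix.updateRow_self, Pi.add_apply,
        Pi.smul_apply, Pi.single_apply, smul_eq_mul]
      by_cases hk : k = j
      · simp [hk]
      · simp [hk, Ne.symm hk]
    · simp [Ei, Matrix.diagonal_apply, hj]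
  rw [h1, Matrix.det_updateRow_add, Matrix.det_updateRow_smul, Matrix.updateRow_eq_self,
    Matrix.adjugate_apply]

/-- the determinant ratio -/
noncomputable def ra {n : ℕ} (W D : Matrix (Fin n) (Fin n) ℝ) : ℝ≥0∞ :=
  ENNReal.ofReal (Real.sqrt (W.det / (W + D).det))

lemma measurable_ra {n : ℕ} (D : Matrix (Fin n) (Fin n) ℝ) :
    Measurable fun W : Matrix (Fin n) (Fin n) ℝ => ra W D := by
  unfold ra
  have h1 : Measurable fun W : Matrix (Fin n) (Fin n) ℝ => W.det :=
    (continuous_id.matrix_det).measurable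
  have h2 : Measurable fun W : Matrix (Fin n) (Fin n) ℝ => (W + D).det :=
    ((continuous_id.add continuous_const).matrix_det).measurable
  exact ((h1.div h2).sqrt).ennreal_ofReal

lemma continuous_gr {n : ℕ} : Continuous fun A : Matrix (Fin n) (Fin n) ℝ => gr A := by
  unfold gr
  fun_prop

lemma cont_G {n : ℕ} (Abar : Matrix (Fin n) (Fin n) ℝ) :
    Continuous fun G : Fin n → Fin n → ℝ => Abar + Matrix.of G := by
  refine continuous_matrix fun i j => ?_
  simp only [Matrix.add_apply, Matrix.of_apply]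
  fun_prop

/-- the one-row shift inequality -/
theorem step {N : ℕ} (Abar : Matrix (Fin (N + 1)) (Fin (N + 1)) ℝ) (i : Fin (N + 1)) {ε : ℝ}
    (hε : 0 < ε) (f : Matrix (Fin (N + 1)) (Fin (N + 1)) ℝ → ℝ≥0∞) (hf : Measurable f) :
    ENNReal.ofReal (Real.exp (-ε ^ 2 / 2)) *
      ∫⁻ G, f (gr (Abar + Matrix.of G) + Ei i (ε ^ 2)) *
        ra (gr (Abar + Matrix.of G)) (Ei i (ε ^ 2)) ∂(muM (N + 1) (N + 1)) ≤
    ∫⁻ G, f (gr (Abar + Matrix.of G)) ∂(muM (N + 1) (N + 1)) := by
  have hsplit := measurePreserving_piFinSuccAbove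
    (fun _ : Fin (N + 1) => gam (Fin (N + 1))) i
  set e := MeasurableEquiv.piFinSuccAbove (fun _ : Fin (N + 1) => (Fin (N + 1) → ℝ)) i with he
  have hgen : ∀ Ψ : (Fin (N + 1) → Fin (N + 1) → ℝ) → ℝ≥0∞, Measurable Ψ →
      ∫⁻ G, Ψ G ∂(muM (N + 1) (N + 1)) =
      ∫⁻ B, ∫⁻ g, Ψ (i.insertNth g B) ∂(gam (Fin (N + 1)))
        ∂(Measure.pi fun _ : Fin N => gam (Fin (N + 1))) := by
    intro Ψ hΨ
    have h1 : Measurable fun z : (Fin (N + 1) → ℝ) × (Fin N → Fin (N + 1) → ℝ) =>
        Ψ (e.symm z) := hΨ.comp e.symm.measurable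
    have h2 : ∫⁻ G, Ψ G ∂(muM (N + 1) (N + 1)) =
        ∫⁻ z, Ψ (e.symm z) ∂((gam (Fin (N + 1))).prod
          (Measure.pi fun _ : Fin N => gam (Fin (N + 1)))) := by
      rw [← hsplit.lintegral_comp h1]
      refine lintegral_congr fun G => ?_
      rw [show (MeasurableEquiv.piFinSuccAbove (fun _ : Fin (N + 1) => (Fin (N + 1) → ℝ)) i) G = e G
        from rfl, e.symm_apply_apply]
    rw [h2, lintegral_prod_symm' _ h1]
    rfl
  have hgrm : Measurable fun G : Fin (N + 1) → Fin (N + 1) → ℝ => gr (Abar + Matrix.of G) :=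
    (continuous_gr.comp (cont_G Abar)).measurable
  have haddm : Measurable fun W : Matrix (Fin (N + 1)) (Fin (N + 1)) ℝ => W + Ei i (ε ^ 2) :=
    (continuous_id.add continuous_const).measurable
  have hΨ1 : Measurable fun G : Fin (N + 1) → Fin (N + 1) → ℝ =>
      f (gr (Abar + Matrix.of G) + Ei i (ε ^ 2)) * ra (gr (Abar + Matrix.of G)) (Ei i (ε ^ 2)) :=
    (hf.comp (haddm.comp hgrm)).mul ((measurable_ra _).comp hgrm)
  have hΨ2 : Measurable fun G : Fin (N + 1) → Fin (N + 1) → ℝ => f (gr (Abar + Matrix.of G)) :=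
    hf.comp hgrm
  rw [hgen _ hΨ1, hgen _ hΨ2, ← lintegral_const_mul' _ _ ENNReal.ofReal_ne_top]
  refine lintegral_mono fun B => ?_
  obtain ⟨ν, hν, hνB⟩ := exists_normal (fun j => Abar (i.succAbove j) + B j)
  obtain ⟨L, hLm, hLν, hL⟩ := row_disint ν hν
  have hins : Measurable fun g : Fin (N + 1) → ℝ =>
      (i.insertNth g B : Fin (N + 1) → Fin (N + 1) → ℝ) := by
    rw [measurable_pi_iff]
    intro j
    refine Fin.succAboveCases i ?_ (fun j => ?_) j
    · simp only [Fin.insertNth_apply_same]; exact measurable_id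
    · simp only [Fin.insertNth_apply_succAbove]; exact measurable_const
  have hL1 := hL (fun g => f (gr (Abar + Matrix.of (i.insertNth g B)) + Ei i (ε ^ 2)) *
    ra (gr (Abar + Matrix.of (i.insertNth g B))) (Ei i (ε ^ 2))) (hΨ1.comp hins)
  have hL2 := hL (fun g => f (gr (Abar + Matrix.of (i.insertNth g B)))) (hΨ2.comp hins)
  rw [hL1, hL2, ← lintegral_const_mul' _ _ ENNReal.ofReal_ne_top]
  refine lintegral_mono fun r => ?_
  set α := dotProduct (Abar i) ν with hα
  set M0 : Matrix (Fin (N + 1)) (Fin (N + 1)) ℝ :=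
    Abar + Matrix.of (i.insertNth (L r - α • ν) B) with hM0
  have hM0ν : M0 *ᵥ ν = 0 := by
    funext j
    refine Fin.succAboveCases i ?_ (fun j => ?_) j
    · have h1 : M0 i = Abar i + (L r - α • ν) := by
        funext k; simp [hM0]
      rw [Matrix.mulVec, h1, add_dotProduct, sub_dotProduct, smul_dotProduct, hν, dotProduct_comm (L r),
        hLν, ← hα]
      simp
    · have h1 : M0 (i.succAbove j) = Abar (i.succAbove j) + B j := by
        funext k; simp [hM0]
      rw [Matrix.mulVec, h1, hνB]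
      rfl
  have hM : ∀ t : ℝ, Abar + Matrix.of (i.insertNth (L r + t • ν) B) =
      M0 + (α + t) • Matrix.vecMulVec (Pi.single i (1 : ℝ)) ν := by
    intro t
    ext j k
    refine Fin.succAboveCases i ?_ (fun j => ?_) j
    · simp only [hM0, Matrix.add_apply, Matrix.of_apply, Fin.insertNth_apply_same, Pi.add_apply,
        Pi.sub_apply, Pi.smul_apply, Matrix.smul_apply, Matrix.vecMulVec_apply, Pi.single_eq_same,
        smul_eq_mul]
      ring
    · simp [hM0, Matrix.vecMulVec_apply]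
  have hgr : ∀ t : ℝ, gr (Abar + Matrix.of (i.insertNth (L r + t • ν) B)) =
      gr M0 + Ei i ((α + t) ^ 2) := fun t => by rw [hM t, gram_step _ _ _ _ hM0ν hν]
  have hdet0 : (gr M0).det = 0 := by
    have : M0.det = 0 := by
      apply Matrix.exists_mulVec_eq_zero_iff.mp
      refine ⟨ν, ?_, hM0ν⟩
      rintro rfl
      simp at hν
    rw [gr, Matrix.det_mul, this, zero_mul]
  have hEadd : ∀ a b : ℝ, gr M0 + Ei i a + Ei i b = gr M0 + Ei i (a + b) := by
    intro a b
    rw [add_assoc]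
    congr 1
    rw [Ei_eq, Ei_eq, Ei_eq, ← add_smul]
  have hra : ∀ t : ℝ, ra (gr (Abar + Matrix.of (i.insertNth (L r + t • ν) B))) (Ei i (ε ^ 2)) ≤
      ENNReal.ofReal (|α + t| / Real.sqrt ((α + t) ^ 2 + ε ^ 2)) := by
    intro t
    rw [hgr t, ra, hEadd, det_add_Ei, det_add_Ei, hdet0, zero_add, zero_add]
    apply ENNReal.ofReal_le_ofReal
    by_cases hD : (gr M0).adjugate i i = 0
    · rw [hD]; simp; positivity
    · rw [mul_div_mul_right _ _ hD, Real.sqrt_div (sq_nonneg _), Real.sqrt_sq_eq_abs]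
  have hFm : Measurable fun s : ℝ => f (gr M0 + Ei i s) := by
    apply hf.comp
    refine Continuous.measurable ?_
    refine continuous_const.add ?_
    unfold Ei
    refine Continuous.matrix_diagonal ?_
    refine continuous_pi fun j => ?_
    by_cases hj : j = i
    · subst hj; simp only [Pi.single_eq_same]; exact continuous_id
    · simp only [Pi.single_apply, hj, if_false]; exact continuous_const
  have hsh := shift1 (fun s : ℝ => f (gr M0 + Ei i s)) hFm α hε
  refine le_trans ?_ (hsh.trans (le_of_eq ?_))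
  · gcongr with t
    · rw [hgr t, hEadd]
    · exact hra t
  · refine lintegral_congr fun t => ?_
    rw [hgr t]

end Pool.Agent.X319.SST
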