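import Pool.Agent.X319.SST.One

/-! The one-dimensional inverse bound. -/

set_option autoImplicit false
open MeasureTheory Measure Set ProbabilityTheory
open scoped ENNReal NNReal

namespace Pool.Agent.X319.SST

lemma q_mass (α : ℝ) : ∫⁻ s in Ioi (0 : ℝ), ENNReal.ofReal (q α s) = 1 := by
  have h := fold α (fun _ => 1) measurable_const (fun _ => rfl)
  simp only [one_mul, lintegral_const, measure_univ, mul_one] at h
  exact h.symm

lemma q_eq_mul (α s : ℝ) : q α s = (Real.exp (-α ^ 2 / 2) * Real.cosh (α * s)) * q 0 s := by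
  unfold q
  simp only [zero_mul, Real.cosh_zero]
  norm_num
  ring

lemma exists_cross {α : ℝ} (hα : α ≠ 0) :
    ∃ s0 : ℝ, 0 < s0 ∧ Real.exp (-α ^ 2 / 2) * Real.cosh (α * s0) = 1 := by
  have hα0 : 0 < |α| := abs_pos.mpr hα
  set b := (Real.log 2 + α ^ 2 / 2) / |α| with hb
  have hl2 : 0 < Real.log 2 := Real.log_pos (by norm_num)
  have hb0 : 0 ≤ b := by positivity
  have hcont : ContinuousOn (fun s : ℝ => Real.exp (-α ^ 2 / 2) * Real.cosh (α * s)) (Icc 0 b) := by
    fun_prop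
  have hmem : (1 : ℝ) ∈ Icc (Real.exp (-α ^ 2 / 2) * Real.cosh (α * 0))
      (Real.exp (-α ^ 2 / 2) * Real.cosh (α * b)) := by
    constructor
    · rw [mul_zero, Real.cosh_zero, mul_one]
      apply Real.exp_le_one_iff.mpr
      have := sq_nonneg α
      linarith
    · have h1 : Real.cosh (α * b) = Real.cosh (|α| * b) := by
        rw [← Real.cosh_abs (α * b), abs_mul, abs_of_nonneg hb0]
      have h2 : |α| * b = Real.log 2 + α ^ 2 / 2 := by
        rw [hb]; field_simp
      rw [h1, h2, Real.cosh_eq, Real.exp_add, Real.exp_log (by norm_num)]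
      have h3 : Real.exp (-α ^ 2 / 2) * Real.exp (α ^ 2 / 2) = 1 := by
        rw [← Real.exp_add]; simp; ring
      have h4 : 0 < Real.exp (-α ^ 2 / 2) * Real.exp (-(Real.log 2 + α ^ 2 / 2)) := by positivity
      nlinarith
  obtain ⟨s0, hs0, hs1⟩ := intermediate_value_Icc hb0 hcont hmem
  refine ⟨s0, lt_of_le_of_ne hs0.1 ?_, hs1⟩
  rintro rfl
  simp only [mul_zero, Real.cosh_zero, mul_one, Real.exp_eq_one_iff] at hs1
  have h5 : α ^ 2 = 0 := by linarith
  exact hα (pow_eq_zero_iff two_ne_zero |>.mp h5)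

theorem mono_center (α : ℝ) (k : ℝ → ℝ) (hk : Measurable k) (hk0 : ∀ s, 0 ≤ k s)
    (heven : ∀ s, k (-s) = k s) (hmono : ∀ s t, 0 < s → s ≤ t → k s ≤ k t) :
    ∫⁻ t, ENNReal.ofReal (k t) ∂(gaussianReal 0 1) ≤
      ∫⁻ t, ENNReal.ofReal (k (α + t)) ∂(gaussianReal 0 1) := by
  by_cases hα : α = 0
  · simp [hα]
  have h0 := fold 0 (fun s => ENNReal.ofReal (k s)) hk.ennreal_ofReal (fun s => by rw [heven])
  have h1 := fold α (fun s => ENNReal.ofReal (k s)) hk.ennreal_ofReal (fun s => by rw [heven])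
  simp only [zero_add] at h0
  rw [h0, h1]
  obtain ⟨s0, hs0, hC⟩ := exists_cross hα
  have hqm : ∀ β : ℝ, Measurable fun s => ENNReal.ofReal (q β s) := fun β =>
    (continuous_q β).measurable.ennreal_ofReal
  have hkq : ∀ β : ℝ, Measurable fun s => ENNReal.ofReal (k s) * ENNReal.ofReal (q β s) := fun β =>
    hk.ennreal_ofReal.mul (hqm β)
  have key : (∫⁻ s in Ioi (0 : ℝ), ENNReal.ofReal (k s) * ENNReal.ofReal (q 0 s)) +
      ENNReal.ofReal (k s0) ≤
      (∫⁻ s in Ioi (0 : ℝ), ENNReal.ofReal (k s) * ENNReal.ofReal (q α s)) +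
      ENNReal.ofReal (k s0) := by
    have e1 : ENNReal.ofReal (k s0) = ∫⁻ s in Ioi (0 : ℝ), ENNReal.ofReal (k s0) *
        ENNReal.ofReal (q α s) := by
      rw [lintegral_const_mul _ (hqm α), q_mass, mul_one]
    have e2 : ENNReal.ofReal (k s0) = ∫⁻ s in Ioi (0 : ℝ), ENNReal.ofReal (k s0) *
        ENNReal.ofReal (q 0 s) := by
      rw [lintegral_const_mul _ (hqm 0), q_mass, mul_one]
    calc (∫⁻ s in Ioi (0 : ℝ), ENNReal.ofReal (k s) * ENNReal.ofReal (q 0 s)) +
          ENNReal.ofReal (k s0)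
        = (∫⁻ s in Ioi (0 : ℝ), ENNReal.ofReal (k s) * ENNReal.ofReal (q 0 s)) +
          ∫⁻ s in Ioi (0 : ℝ), ENNReal.ofReal (k s0) * ENNReal.ofReal (q α s) := by rw [← e1]
      _ = ∫⁻ s in Ioi (0 : ℝ), (ENNReal.ofReal (k s) * ENNReal.ofReal (q 0 s) +
          ENNReal.ofReal (k s0) * ENNReal.ofReal (q α s)) := by
          rw [lintegral_add_left (hkq 0)]
      _ ≤ ∫⁻ s in Ioi (0 : ℝ), (ENNReal.ofReal (k s) * ENNReal.ofReal (q α s) +
          ENNReal.ofReal (k s0) * ENNReal.ofReal (q 0 s)) := by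
          refine setLIntegral_mono' measurableSet_Ioi fun s hs => ?_
          have hs' : 0 < s := hs
          have hq0 : ∀ β : ℝ, 0 ≤ q β s := fun β => q_nonneg β s
          rw [← ENNReal.ofReal_mul (hk0 _), ← ENNReal.ofReal_mul (hk0 _),
            ← ENNReal.ofReal_mul (hk0 _), ← ENNReal.ofReal_mul (hk0 _),
            ← ENNReal.ofReal_add (mul_nonneg (hk0 _) (hq0 _)) (mul_nonneg (hk0 _) (hq0 _)),
            ← ENNReal.ofReal_add (mul_nonneg (hk0 _) (hq0 _)) (mul_nonneg (hk0 _) (hq0 _))]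
          apply ENNReal.ofReal_le_ofReal
          rw [q_eq_mul α s]
          set C := Real.exp (-α ^ 2 / 2) * Real.cosh (α * s) with hCdef
          have h2 : 0 ≤ (k s - k s0) * (C - 1) := by
            rcases le_total s0 s with h | h
            · apply mul_nonneg (sub_nonneg.mpr (hmono _ _ hs0 h))
              rw [sub_nonneg, ← hC, hCdef]
              gcongr
              rw [Real.cosh_le_cosh, abs_mul, abs_mul]
              gcongr
            · apply mul_nonneg_of_nonpos_of_nonpos (sub_nonpos.mpr (hmono _ _ hs' h))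
              rw [sub_nonpos, ← hC, hCdef]
              gcongr
              rw [Real.cosh_le_cosh, abs_mul, abs_mul]
              gcongr
          have h3 := mul_nonneg h2 (hq0 0)
          nlinarith
      _ = (∫⁻ s in Ioi (0 : ℝ), ENNReal.ofReal (k s) * ENNReal.ofReal (q α s)) +
          ∫⁻ s in Ioi (0 : ℝ), ENNReal.ofReal (k s0) * ENNReal.ofReal (q 0 s) := by
          rw [lintegral_add_left (hkq α)]
      _ = _ := by rw [← e2]
  exact (ENNReal.add_le_add_iff_right ENNReal.ofReal_ne_top).mp key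

lemma cs_image {a : ℝ} (ha : 0 < a) : (fun s : ℝ => s - a / s) '' Ioi 0 = univ := by
  ext u
  simp only [mem_image, mem_Ioi, mem_univ, iff_true]
  set r := Real.sqrt (u ^ 2 + 4 * a) with hr
  have hr2 : r ^ 2 = u ^ 2 + 4 * a := Real.sq_sqrt (by positivity)
  have hru : |u| < r := by
    rw [hr]
    apply Real.lt_sqrt_of_sq_lt
    rw [sq_abs]; linarith
  have hpos : 0 < (u + r) / 2 := by
    have := neg_abs_le u
    linarith
  refine ⟨(u + r) / 2, hpos, ?_⟩
  have hne : (u + r) / 2 ≠ 0 := hpos.ne'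
  have : u + r ≠ 0 := fun h => hne (by rw [h]; simp)
  field_simp
  nlinarith

lemma cs_inj {a : ℝ} (ha : 0 < a) : InjOn (fun s : ℝ => s - a / s) (Ioi 0) := by
  intro s hs t ht hst
  have hs0 : (0 : ℝ) < s := hs
  have ht0 : (0 : ℝ) < t := ht
  simp only at hst
  have h1 : (s - t) * (1 + a / (s * t)) = 0 := by
    have : (s - t) * (1 + a / (s * t)) = (s - a / s) - (t - a / t) := by
      field_simp
      ring
    rw [this, hst, sub_self]
  have h2 : 1 + a / (s * t) ≠ 0 := by positivity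
  have h3 := (mul_eq_zero.mp h1).resolve_right h2
  linarith

theorem cauchy_schlomilch {a : ℝ} (ha : 0 < a) (g : ℝ → ℝ≥0∞) (hg : Measurable g)
    (heven : ∀ s, g (-s) = g s) :
    ∫⁻ u, g u = 2 * ∫⁻ s in Ioi (0 : ℝ), g (s - a / s) := by
  have hd1 : ∀ s ∈ Ioi (0 : ℝ), HasDerivWithinAt (fun s : ℝ => s - a / s) (1 + a / s ^ 2)
      (Ioi 0) s := by
    intro s hs
    have hs0 : s ≠ 0 := (mem_Ioi.mp hs).ne'
    have h1 : HasDerivAt (fun s : ℝ => a / s) (-(a / s ^ 2)) s := by
      have := (hasDerivAt_inv hs0).const_mul a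
      rw [mul_neg] at this
      simpa only [div_eq_mul_inv] using this
    have h2 : HasDerivAt (fun s : ℝ => s - a / s) (1 - -(a / s ^ 2)) s := (hasDerivAt_id' s).sub h1
    rw [sub_neg_eq_add] at h2
    exact h2.hasDerivWithinAt
  have hd2 : ∀ s ∈ Ioi (0 : ℝ), HasDerivWithinAt (fun s : ℝ => a / s) (-(a / s ^ 2))
      (Ioi 0) s := by
    intro s hs
    have hs0 : s ≠ 0 := (mem_Ioi.mp hs).ne'
    have := (hasDerivAt_inv hs0).const_mul a
    rw [mul_neg] at this
    have h1 : HasDerivAt (fun s : ℝ => a / s) (-(a / s ^ 2)) s := by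
      simpa only [div_eq_mul_inv] using this
    exact h1.hasDerivWithinAt
  have him2 : (fun s : ℝ => a / s) '' Ioi 0 = Ioi 0 := by
    ext u
    simp only [mem_image, mem_Ioi]
    constructor
    · rintro ⟨s, hs, rfl⟩; positivity
    · intro hu
      exact ⟨a / u, by positivity, by field_simp⟩
  have hinj2 : InjOn (fun s : ℝ => a / s) (Ioi 0) := by
    intro s hs t ht hst
    have hs0 : (0 : ℝ) < s := hs
    have ht0 : (0 : ℝ) < t := ht
    simp only at hst
    field_simp at hst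
    linarith
  have hcv1 := lintegral_image_eq_lintegral_abs_deriv_mul measurableSet_Ioi hd1 (cs_inj ha) g
  rw [cs_image ha, Measure.restrict_univ] at hcv1
  have hcv2 := lintegral_image_eq_lintegral_abs_deriv_mul measurableSet_Ioi hd2 hinj2
    (fun s => g (s - a / s))
  rw [him2] at hcv2
  have hgm : Measurable fun s : ℝ => g (s - a / s) := hg.comp (by fun_prop)
  rw [hcv1, two_mul]
  have h3 : ∫⁻ s in Ioi (0 : ℝ), ENNReal.ofReal |1 + a / s ^ 2| * g (s - a / s) =
      ∫⁻ s in Ioi (0 : ℝ), (g (s - a / s) + ENNReal.ofReal |-(a / s ^ 2)| * g (a / s - a / (a / s))) := by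
    refine setLIntegral_congr_fun measurableSet_Ioi fun s hs => ?_
    have hs0 : (0 : ℝ) < s := hs
    have h4 : a / s - a / (a / s) = -(s - a / s) := by field_simp; ring
    rw [h4, heven, abs_neg, abs_of_pos (by positivity : (0 : ℝ) < 1 + a / s ^ 2),
      abs_of_pos (by positivity : (0 : ℝ) < a / s ^ 2),
      ENNReal.ofReal_add zero_le_one (by positivity), ENNReal.ofReal_one, add_mul, one_mul]
  rw [h3, lintegral_add_left hgm, ← hcv2]

theorem inv_exp_center {a : ℝ} (ha : 0 < a) :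
    ∫⁻ t, ENNReal.ofReal (Real.exp (-(a ^ 2 / (2 * t ^ 2)))) ∂(gaussianReal 0 1) =
      ENNReal.ofReal (Real.exp (-a)) := by
  have h0 := fold 0 (fun s => ENNReal.ofReal (Real.exp (-(a ^ 2 / (2 * s ^ 2))))) (by fun_prop)
    (fun s => by simp)
  simp only [zero_add] at h0
  rw [h0]
  have hg : Measurable (gaussianPDF 0 1) := measurable_gaussianPDF 0 1
  have heven : ∀ s, gaussianPDF 0 1 (-s) = gaussianPDF 0 1 s := by
    intro s
    simp [gaussianPDF_def, gaussianPDFReal_def]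
  have h1 : ∀ s ∈ Ioi (0 : ℝ), ENNReal.ofReal (Real.exp (-(a ^ 2 / (2 * s ^ 2)))) *
      ENNReal.ofReal (q 0 s) = ENNReal.ofReal (Real.exp (-a)) * (2 * gaussianPDF 0 1 (s - a / s)) := by
    intro s hs
    have hs0 : (0 : ℝ) < s := hs
    have e1 : gaussianPDF 0 1 (s - a / s) = ENNReal.ofReal
        ((Real.sqrt (2 * Real.pi))⁻¹ * Real.exp (-(s - a / s) ^ 2 / 2)) := by
      rw [gaussianPDF_def, gaussianPDFReal_def]
      simp only [NNReal.coe_one, mul_one, sub_zero]
    have e2 : (2 : ℝ≥0∞) = ENNReal.ofReal 2 := by simp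
    rw [e1, e2, ← ENNReal.ofReal_mul (p := 2) (by norm_num), ← ENNReal.ofReal_mul (Real.exp_pos _).le,
      ← ENNReal.ofReal_mul (Real.exp_pos _).le]
    congr 1
    unfold q
    have h2 : Real.exp (-(a ^ 2 / (2 * s ^ 2))) * Real.exp (-s ^ 2 / 2) =
        Real.exp (-a) * Real.exp (-(s - a / s) ^ 2 / 2) := by
      rw [← Real.exp_add, ← Real.exp_add]
      congr 1
      field_simp
      ring
    have h3 : Real.exp (-(0 : ℝ) ^ 2 / 2) = 1 := by simp
    rw [zero_mul, Real.cosh_zero, h3]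
    calc Real.exp (-(a ^ 2 / (2 * s ^ 2))) *
          ((Real.sqrt (2 * Real.pi))⁻¹ * 1 * Real.exp (-s ^ 2 / 2) * (2 * 1))
        = (Real.exp (-(a ^ 2 / (2 * s ^ 2))) * Real.exp (-s ^ 2 / 2)) *
          ((Real.sqrt (2 * Real.pi))⁻¹ * 2) := by ring
      _ = _ := by rw [h2]; ring
  rw [setLIntegral_congr_fun measurableSet_Ioi h1, lintegral_const_mul' _ _ ENNReal.ofReal_ne_top,
    lintegral_const_mul' _ _ (by norm_num), ← cauchy_schlomilch ha _ hg heven,
    lintegral_gaussianPDF_eq_one 0 one_ne_zero, mul_one]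

/-- The key one-dimensional bound. -/
theorem inv_exp {a : ℝ} (ha : 0 ≤ a) (α : ℝ) :
    ENNReal.ofReal (Real.exp (-a)) ≤
      ∫⁻ t, ENNReal.ofReal (Real.exp (-(a ^ 2 / (2 * (α + t) ^ 2)))) ∂(gaussianReal 0 1) := by
  rcases ha.eq_or_lt with rfl | ha
  · simp
  rw [← inv_exp_center ha]
  refine mono_center α (fun s => Real.exp (-(a ^ 2 / (2 * s ^ 2)))) (by fun_prop)
    (fun s => (Real.exp_pos _).le) (fun s => by simp) ?_
  intro s t hs hst
  gcongr

end Pool.Agent.X319.SST
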